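import Pool.Agent.MP_db5b97_nt.H31.SpecT
import Pool.Agent.MP_db5b97_nt.H76.CORE
import Pool.Agent.MP_db5b97_nt.H19.DENS
import Pool.Agent.MP_db5b97_nt.H95.RES
import Pool.Agent.MP_db5b97_nt.H10.NT1

/-! Two levels of a cyclic extension. -/

namespace Pool.Agent.MP_db5b97_nt.H75

open NumberField IsDedekindDomain Polynomial H85 H31

theorem not_mem {F : Type} [Field F] [NumberField F] {l s : ℕ} {w : Sp F}
    (hw : (l : 𝓞 F) ∈ w.asIdeal) (hs : s.Coprime l) : (s : 𝓞 F) ∉ w.asIdeal :=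
  (val_eq_one_iff w s).1 (by simpa using val_coprime hw hs)

theorem pr_nonempty (k : Type) [Field k] [NumberField k] {l : ℕ} (hl : l ≠ 0) :
    Nonempty (Pr k l) := by
  have hl0 : ((l + 1 : ℕ) : 𝓞 k) ≠ 0 := by exact_mod_cast (by omega : l + 1 ≠ 0)
  have hu : ¬ IsUnit ((l + 1 : ℕ) : 𝓞 k) := fun h => by
    have h1 := Int.isUnit_iff_natAbs_eq.1 (h.map (Algebra.norm ℤ))
    rw [show ((l + 1 : ℕ) : 𝓞 k) = algebraMap ℤ (𝓞 k) (l + 1 : ℕ) by simp, Algebra.norm_algebraMap,
      Int.natAbs_pow, Int.natAbs_natCast, pow_eq_one_iff] at h1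
    exact h1.elim (by omega) Module.finrank_pos.ne'
  obtain ⟨J, hJ, h⟩ := exists_max_ideal_of_mem_nonunits hu
  let w : Sp k := ⟨J, hJ.isPrime, fun e => hl0 (by simpa [e] using h)⟩
  exact ⟨⟨w, not_mem (w := w) h (by simp)⟩⟩

/-- a prime fixed by the group and unramified is inert -/
theorem inert {F E A : Type} [Field F] [NumberField F] [Field E] [NumberField E] [Algebra F E]
    [Group A] [Finite A] [MulSemiringAction A E] [IsGaloisGroup A F E] {q : ℕ} (W : Pr E q)
    (hu : W.1.asIdeal.ramificationIdx (𝓞 F) = 1) (hf : ∀ a : A, a • W.1 = W.1) :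
    W.1.asIdeal.inertiaDeg (𝓞 F) = Nat.card A := by
  have e := H19.efg F (G := A) W
  have h1 : ((W.und F).1.asIdeal.primesOver (𝓞 E)).ncard = 1 := by
    refine Set.ncard_eq_one.2 ⟨W.1.asIdeal, ?_⟩
    refine Set.eq_singleton_iff_unique_mem.2 ⟨⟨W.1.isPrime, H19.liesOver F W⟩, ?_⟩
    rintro Q ⟨hQ, hQ'⟩
    have := W.1.isPrime
    have := H19.liesOver F W
    obtain ⟨g, hg⟩ := Ideal.exists_smul_eq_of_isGaloisGroup (W.und F).1.asIdeal W.1.asIdeal Q A
    rw [← hg]
    exact congrArg (fun u : Sp E => u.asIdeal) (hf g)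
  rwa [h1, hu, one_mul, one_mul] at e

/-- the residue degrees over the fixed field of the product -/
theorem lev (hM : RowMS) (P A K F : Type) {E : Type} [Group P] [Group A] [Finite A] [Field K]
    [NumberField K] [Field F] [NumberField F] [Field E] [NumberField E] [Algebra K F] [Algebra F E]
    [Algebra K E] [IsScalarTower K F E] [MulSemiringAction P F] [MulSemiringAction P E]
    [MulSemiringAction A E] [hK : IsGaloisGroup P K F] [hF : IsGaloisGroup A F E]
    (comm : ∀ (s : P) (a : A) (x : E), s • a • x = a • s • x)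
    (eqv : ∀ (s : P) (x : F), algebraMap F E (s • x) = s • algebraMap F E x)
    (hP : ∀ s : P, s ^ Nat.card A = 1) (W : Sp E)
    (hW : W.asIdeal.inertiaDeg (𝓞 F) = Nat.card A) :
    W.asIdeal.inertiaDeg (𝓞 K) = Nat.card A ∧ (und F W).asIdeal.inertiaDeg (𝓞 K) = 1 := by
  let φ : P × A →* RingAut E := (MulSemiringAction.toRingAut P E).noncommCoprod
    (MulSemiringAction.toRingAut A E) fun s a => RingEquiv.ext fun x => comm s a x
  let _ : MulSemiringAction (P × A) E := MulSemiringAction.compHom E φ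
  have hφ : ∀ (s : P) (a : A) (x : E), (s, a) • x = s • a • x := fun _ _ _ => rfl
  have hi := (algebraMap F E).injective
  have hKE : ∀ (s : P) (x : K), s • algebraMap K E x = algebraMap K E x := fun s x => by
    rw [IsScalarTower.algebraMap_apply K F E, ← eqv, H76.smul_alg]
  have hKA : ∀ (a : A) (x : K), a • algebraMap K E x = algebraMap K E x := fun a x => by
    rw [IsScalarTower.algebraMap_apply K F E, H76.smul_alg]
  have : IsGaloisGroup (P × A) K E := by
    refine ⟨⟨fun {g g'} h => ?_⟩, ⟨fun g c x => ?_⟩, ⟨fun x hx => ?_⟩⟩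
    · obtain ⟨s, a⟩ := g
      obtain ⟨s', a'⟩ := g'
      have e : s = s' := hK.faithful.eq_of_smul_eq_smul fun x : F => hi (by
        have := h (algebraMap F E x)
        rwa [hφ, hφ, H76.smul_alg a, H76.smul_alg a', ← eqv, ← eqv] at this)
      subst e
      have e : a = a' := hF.faithful.eq_of_smul_eq_smul fun x : E => by
        have := h x
        rwa [hφ, hφ, smul_left_cancel_iff] at this
      rw [e]
    · obtain ⟨s, a⟩ := g
      rw [Algebra.smul_def, Algebra.smul_def, smul_mul', hφ s a (algebraMap K E c), hKA, hKE]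
    · obtain ⟨y, rfl⟩ := hF.isInvariant.isInvariant x fun a => by simpa [hφ] using hx (1, a)
      obtain ⟨z, rfl⟩ := hK.isInvariant.isInvariant y fun s => hi (by
        have := hx (s, 1)
        rwa [hφ, one_smul, ← eqv] at this)
      exact ⟨z, IsScalarTower.algebraMap_apply K F E z⟩
  have h1 := hM.fexp K E (P × A) (Nat.card A)
    (fun g => Prod.ext (hP g.1) pow_card_eq_one') W
  have h2 := (hM.tower K F E W).2
  rw [hW] at h2
  rw [h2] at h1 ⊢
  have h3 : (und F W).asIdeal.inertiaDeg (𝓞 K) = 1 := by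
    have h0 : 0 < Nat.card A := Nat.card_pos
    exact Nat.dvd_one.1 (Nat.dvd_of_mul_dvd_mul_right h0 (by rwa [one_mul]))
  rw [h3, one_mul]
  exact ⟨rfl, rfl⟩

theorem card_zp {Λ : Type} [Group Λ] {lam : Λ} {p R n : ℕ} (hp : p.Prime)
    (hc : Nat.card Λ = p ^ R) (hg : ∀ s : Λ, s ∈ Subgroup.zpowers lam) (hn : n ≤ R) :
    Nat.card (Subgroup.zpowers (lam ^ p ^ n)) = p ^ (R - n) := by
  have ho : orderOf lam = p ^ R := (orderOf_eq_card_of_forall_mem_zpowers hg).trans hc
  rw [Nat.card_zpowers, orderOf_pow_of_dvd (pow_ne_zero _ hp.ne_zero) (ho ▸ pow_dvd_pow p hn), ho,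
    Nat.pow_div hn hp.pos]

theorem rowTOW (hFR : RowFR) (hM : RowMS) (hI : RowINP) : RowTOW := by
  intro p q R g0 l i0 i r k P E Λ F F' _ _ _ _ _ _ _ _ _ _ _ lam ζ _ _ _ _ _ _ _ _ _ _ hF hF'
    hfr hlh hP hi0 hR eF eF'
  have hp := hfr.pp
  have hgal := hfr.gal
  have hfin : Finite Λ := Nat.finite_of_card_ne_zero (hfr.card ▸ pow_ne_zero _ hp.ne_zero)
  have hres := rowRES H76.rowGEN
  have h1 := H10.rowNT1
  have hl := hlh.hl
  have hi := (algebraMap F E).injective
  have hi' := (algebraMap F' E).injective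
  have cA := card_zp hp hfr.card hfr.gen (n := i) (by omega)
  have cA' := card_zp hp hfr.card hfr.gen (n := i + r) (by omega)
  obtain ⟨ψ, hψ⟩ := H76.exists_lift (G := Subgroup.zpowers (lam ^ p ^ i)) (K := F)
    (algebraMap k E) fun a x => H76.smul_alg (a : Λ) x
  let _ : Algebra k F := ψ.toAlgebra
  have : IsScalarTower k F E := IsScalarTower.of_algebraMap_eq fun x => (hψ x).symm
  have ek : ∀ (s : P) (x : k), algebraMap k F (s • x) = s • algebraMap k F x := fun s x =>
    hi (by rw [eF, ← IsScalarTower.algebraMap_apply, ← IsScalarTower.algebraMap_apply, hfr.eqv])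
  have eFF : ∀ (s : P) (x : F), algebraMap F F' (s • x) = s • algebraMap F F' x := fun s x =>
    hi' (by rw [eF', ← IsScalarTower.algebraMap_apply, ← IsScalarTower.algebraMap_apply, eF])
  obtain ⟨θ, hθ⟩ := hlh.unr
  have hθF : ∀ s : P, s ≠ 1 → ∀ w : Pr F l,
      s • algebraMap (𝓞 k) (𝓞 F) θ - algebraMap (𝓞 k) (𝓞 F) θ ∉ w.1.asIdeal := fun s hs w h =>
    hθ s hs (w.und k) (by
      show algebraMap (𝓞 k) (𝓞 F) _ ∈ w.1.asIdeal
      have e : algebraMap (𝓞 k) (𝓞 F) (s • θ) = s • algebraMap (𝓞 k) (𝓞 F) θ :=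
        RingOfIntegers.ext (ek s θ)
      rwa [map_sub, e])
  have fa : FaithfulSMul P F := ⟨fun {s t} h => by
    obtain ⟨w⟩ := pr_nonempty F (l := l) (by omega)
    by_contra hne
    refine hθF (t⁻¹ * s) (fun e => hne (inv_mul_eq_one.1 e).symm) w ?_
    have e : (t⁻¹ * s) • algebraMap (𝓞 k) (𝓞 F) θ = algebraMap (𝓞 k) (𝓞 F) θ :=
      RingOfIntegers.ext (by
        show (t⁻¹ * s) • ((algebraMap (𝓞 k) (𝓞 F) θ : 𝓞 F) : F) = _
        rw [mul_smul, h, inv_smul_smul])
    rw [e, sub_self]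
    exact zero_mem _⟩
  have fa' : FaithfulSMul P F' := ⟨fun {s t} h => fa.eq_of_smul_eq_smul fun x : F =>
    (algebraMap F F').injective (by rw [eFF, eFF, h])⟩
  have hrk : Module.finrank F F' = p ^ r := by
    have e := Module.finrank_mul_finrank F F' E
    rw [← IsGaloisGroup.card_eq_finrank (Subgroup.zpowers (lam ^ p ^ i)) F E,
      ← IsGaloisGroup.card_eq_finrank (Subgroup.zpowers (lam ^ p ^ (i + r))) F' E, cA, cA',
      show R - i = r + (R - (i + r)) by omega, pow_add] at e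
    exact Nat.eq_of_mul_eq_mul_right (pow_pos hp.pos _) e
  obtain ⟨K, _, _, _, hK⟩ := H76.exists_fix F P
  obtain ⟨K', _, _, _, hK'⟩ := H76.exists_fix F' P
  obtain ⟨χ, hχ⟩ := H76.exists_lift (G := P) (K := K')
    ((algebraMap F F').comp (algebraMap K F)) fun s x => by
      rw [RingHom.comp_apply, ← eFF, H76.smul_alg]
  let _ : Algebra K K' := χ.toAlgebra
  let _ : Algebra K F' := ((algebraMap F F').comp (algebraMap K F)).toAlgebra
  let _ : Algebra K E := ((algebraMap F E).comp (algebraMap K F)).toAlgebra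
  let _ : Algebra K' E := ((algebraMap F' E).comp (algebraMap K' F')).toAlgebra
  have : IsScalarTower K F F' := IsScalarTower.of_algebraMap_eq fun _ => rfl
  have : IsScalarTower K K' F' := IsScalarTower.of_algebraMap_eq fun x => (hχ x).symm
  have : IsScalarTower K F E := IsScalarTower.of_algebraMap_eq fun _ => rfl
  have : IsScalarTower K' F' E := IsScalarTower.of_algebraMap_eq fun _ => rfl
  have : IsScalarTower K K' E := IsScalarTower.of_algebraMap_eq fun x => by
    show algebraMap F E (algebraMap K F x) = algebraMap F' E (algebraMap K' F' (χ x))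
    rw [hχ, RingHom.comp_apply, ← IsScalarTower.algebraMap_apply F F' E]
  have hrk' : Module.finrank K K' = p ^ r := by
    have e := (Module.finrank_mul_finrank K K' F').trans (Module.finrank_mul_finrank K F F').symm
    rw [← IsGaloisGroup.card_eq_finrank P K F, ← IsGaloisGroup.card_eq_finrank P K' F', hrk,
      mul_comm] at e
    exact Nat.eq_of_mul_eq_mul_left Nat.card_pos e
  have hu : Unr F E q := (H76.unr_tower h1 F (hFR p q R g0 k E Λ lam ζ hfr.toCy).2.1).2
  have hu' : Unr F' E q := (H76.unr_tower h1 F' hu).2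
  have hfix : ∀ (n : ℕ), i0 ≤ n → ∀ (W : Pl E l) (a : Subgroup.zpowers (lam ^ p ^ n)),
      (a : Λ) • W.1 = W.1 := fun n hn W a => by
    have : Subgroup.zpowers (lam ^ p ^ n) ≤ MulAction.stabilizer Λ W := by
      rw [Subgroup.zpowers_le, ← Nat.add_sub_cancel' hn, pow_add, pow_mul]
      exact pow_mem (hlh.fix W) _
    exact congrArg Subtype.val (this a.2)
  have hPn : ∀ n, r ≤ n → ∀ s : P, s ^ p ^ n = 1 := fun n hn s =>
    orderOf_dvd_iff_pow_eq_one.1 ((hP ▸ orderOf_dvd_natCard s).trans (pow_dvd_pow p hn))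
  have L : ∀ W : Pl E l, W.1.asIdeal.inertiaDeg (𝓞 K) = p ^ (R - i) ∧
      (und F W.1).asIdeal.inertiaDeg (𝓞 K) = 1 := fun W => by
    let W' : Pr E q := ⟨W.1, not_mem W.2 hlh.cop⟩
    rw [← cA]
    exact lev hM P (Subgroup.zpowers (lam ^ p ^ i)) K F (fun s a x => hfr.comm s a x) eF
      (by rw [cA]; exact hPn _ (by omega)) W.1 (inert W' (hu W') (hfix i hi0 W))
  have L' : ∀ W : Pl E l, W.1.asIdeal.inertiaDeg (𝓞 K') = p ^ (R - (i + r)) := fun W => by
    let W' : Pr E q := ⟨W.1, not_mem W.2 hlh.cop⟩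
    rw [← cA']
    exact (lev hM P (Subgroup.zpowers (lam ^ p ^ (i + r))) K' F' (fun s a x => hfr.comm s a x) eF'
      (by rw [cA']; exact hPn _ (by omega)) W.1
      (inert W' (hu' W') (hfix (i + r) (by omega) W))).1
  have f1 : ∀ w : Pl F l, w.1.asIdeal.inertiaDeg (𝓞 K) = 1 := fun w => by
    obtain ⟨W, rfl⟩ := (h1.und_surj F E l).1 w
    exact (L W).2
  obtain ⟨α, g, hg, h0, hd, hirr⟩ := hI K K' l hl fun w => by
    obtain ⟨W, rfl⟩ := (h1.und_surj K' E l).1 w
    have e := (hM.tower K K' E W.1).2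
    rw [(L W).1, L' W, show R - i = r + (R - (i + r)) by omega, pow_add] at e
    exact (Nat.eq_of_mul_eq_mul_right (pow_pos hp.pos _) e).symm.trans hrk'.symm
  have pg : IsPGroup p P := IsPGroup.of_card hP
  refine ⟨hp, pg, fa, eFF, ?_, hl, ⟨_, hθF⟩, fun w => ?_,
    ⟨algebraMap (𝓞 K') (𝓞 F') α, g.map (algebraMap (𝓞 K) (𝓞 F)), hg.map _, ?_, ?_, fun w => ?_,
      fun s => ?_, fun s n => ?_⟩, by rw [hP, hrk]⟩
  · obtain ⟨j, hj, hj'⟩ := hlh.im
    exact ⟨algebraMap k F j, by rw [← map_pow, hj, map_neg, map_one], fun s => by rw [← ek, hj']⟩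
  · exact hres.res p hp P K F w.1 pg (fun s x => H76.smul_alg s x) (by simp [f1 w])
  · rw [aeval_map_algebraMap, aeval_algebraMap_apply, h0, map_zero]
  · rw [hg.natDegree_map, hd, hrk, hrk']
  · exact hres.up K F w.1 g hg (hirr (w.und K)) (by simp [f1 w])
  · exact RingOfIntegers.ext (H76.smul_alg s (α : K'))
  · rw [coeff_map]
    exact RingOfIntegers.ext (H76.smul_alg s (g.coeff n : K))

end Pool.Agent.MP_db5b97_nt.H75
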