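import Pool.Agent.MP_db5b97_nt.H31.SpecA
import Pool.Agent.MP_db5b97_nt.H58.Main

/-! The upper bound and the final assembly. -/

namespace Pool.Agent.MP_db5b97_nt.H75

open Filter Topology H31 MvPolynomial

theorem topn_mono {N : ℕ} {B B' : ℝ} (h : TOPn N B) (hB : B ≤ B') : TOPn N B' := by
  intro d hd f h1 h2 K hK
  obtain ⟨L, a, b, c, e⟩ := h d hd f h1 h2 K hK
  exact ⟨L, a, b, c, e.trans hB⟩

theorem sz_pos {N : ℕ} (h : 2 ≤ N) : 0 < sz N := by
  have h1 : (1 : ℝ) < N := by exact_mod_cast h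
  exact Real.sqrt_pos.mpr (mul_pos (by linarith) (Real.log_pos h1))

theorem rowUP : RowPIs → RowCs → RowBs → RowTs → RowSMALL → RowUP := by
  intro hP hC hB hT hS ε hε
  set δ := min (ε / 5) 1 with hδ
  have hδ0 : 0 < δ := lt_min (by linarith) one_pos
  have hδ1 : δ ≤ 1 := min_le_right _ _
  have hδ2 : δ ≤ ε / 5 := min_le_left _ _
  have e1 := (tendsto_add_atTop_nat 1).eventually (hP δ hδ0)
  have e2 := (tendsto_add_atTop_nat 1).eventually (hS.two δ hδ0)
  have e3 := hS.shift.eventually (gt_mem_nhds (show (1 : ℝ) < 1 + δ by linarith))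
  filter_upwards [e1, e2, e3, eventually_ge_atTop 3] with N h1 h2 h3 h4
  refine topn_mono (hT N _ (hB (N + 1) _ (by omega) (hC _ _ h1))) ?_
  have hs := sz_pos (N := N) (by omega)
  have hs1 := sz_pos (N := N + 1) (by omega)
  rw [div_lt_iff₀ hs] at h3
  rw [Nat.cast_mul, Nat.cast_ofNat] at h2
  calc _ = Real.exp ((1 + δ) * sz (N + 1)) * (2 * ((∏ p ∈ (Finset.range (N + 1 + 1)).filter
        (fun p => p.Prime ∧ p ^ 2 ≤ N + 1),
        p ^ (Nat.log p (N + 1) * JJ (Nat.log p ((N + 1) ^ 2))) : ℕ) : ℝ)) := by ring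
    _ ≤ Real.exp ((1 + δ) * sz (N + 1)) * Real.exp (δ * sz (N + 1)) :=
        mul_le_mul_of_nonneg_left h2 (Real.exp_pos _).le
    _ = Real.exp ((1 + 2 * δ) * sz (N + 1)) := by rw [← Real.exp_add]; ring_nf
    _ ≤ _ := by
        apply Real.exp_le_exp.mpr
        calc (1 + 2 * δ) * sz (N + 1) ≤ (1 + 2 * δ) * ((1 + δ) * sz N) :=
              mul_le_mul_of_nonneg_left h3.le (by linarith)
          _ = ((1 + 2 * δ) * (1 + δ)) * sz N := by ring
          _ ≤ _ := mul_le_mul_of_nonneg_right (by nlinarith) hs.le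

theorem mem_fom {N : ℕ} (f : Pm N) (x : H85.Om) : x ∈ fom f ↔ ∀ σ : H85.Ga,
    (∃ (φ : GL (Fin (N + 1)) H85.Om) (c : H85.Om), c ≠ 0 ∧
      ∀ i, MvPolynomial.map (σ : H85.Om →+* H85.Om) (f i) = MvPolynomial.C c * H58.conj φ f i) →
      σ x = x := by
  unfold fom
  rw [IntermediateField.mem_fixedField_iff]
  refine ⟨fun h σ hσ => h σ (Subgroup.subset_closure hσ), fun h σ hσ => ?_⟩
  have := (Subgroup.closure_le (MulAction.stabilizer H85.Ga x)).mpr (fun τ hτ => h τ hτ) hσ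
  exact this

theorem ss_le {N : ℕ} {B : ℝ} (h : TOPn N B) : SS N ≤ (⌊B⌋₊ : ℕ) := by
  refine iSup₂_le fun d hd => iSup₂_le fun f hf => ?_
  obtain ⟨L, hL, -, h2, h3⟩ := h d hd f hf.1 hf.2 (fom f) (mem_fom f)
  refine iInf₂_le_of_le L h2 ?_
  have h4 : IntermediateField.relrank (fom f) L < Cardinal.aleph0 :=
    (Cardinal.le_of_dvd rank_pos.ne' (IntermediateField.relrank_dvd_rank_bot _ _)).trans_lt
      (Module.rank_lt_aleph0 ℚ L)
  obtain ⟨n, hn⟩ := Cardinal.lt_aleph0.mp h4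
  rw [IntermediateField.relfinrank_eq_toNat_relrank, hn, Cardinal.toNat_natCast] at h3
  rw [hn, map_natCast]
  exact_mod_cast Nat.le_floor h3

theorem le_ss {N : ℕ} (A : Finset ℕ) (hA : ∀ p ∈ A, p.Prime) (hs : ∑ p ∈ A, p ≤ N) :
    ((∏ p ∈ A, p : ℕ) : ℕ∞) ≤ SS N := by
  have hpos : 0 < ∏ p ∈ A, p := Finset.prod_pos fun p hp => (hA p hp).pos
  have hd : 2 ≤ 1 + ∏ p ∈ A, p := by omega
  obtain ⟨M, hM, h1, h2⟩ := H58.exists_matrix N (1 + ∏ p ∈ A, p) hd A
    (fun n hn => by rw [Nat.add_sub_cancel_left]; exact Finset.dvd_prod_of_mem _ hn) (by omega)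
  set d := 1 + ∏ p ∈ A, p with hdd
  have hmor : IsMor d (H58.pw d M) := by
    refine ⟨fun i => IsHomogeneous.sum _ _ _ fun l _ => (isHomogeneous_X_pow l d).C_mul _,
      fun x hx => ?_⟩
    have h3 : (fun l => x l ^ d) = 0 := Matrix.mulVec_injective_iff_isUnit.mpr hM
      (by rw [← H58.eval_pw, Matrix.mulVec_zero]; exact funext hx)
    exact funext fun l => pow_eq_zero_iff (by omega) |>.mp (congrFun h3 l)
  have hbot : fom (H58.pw d M) = ⊥ := by
    refine eq_bot_iff.mpr fun x hx => ?_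
    rw [InfiniteGalois.mem_bot_iff_fixed]
    intro σ
    obtain ⟨φ, h⟩ := H58.conj_of_mod h1 σ
    exact (mem_fom _ x).mp hx σ ⟨φ, 1, one_ne_zero, fun i => by rw [h, C_1, one_mul]⟩
  refine le_iSup₂_of_le d hd (le_iSup₂_of_le (H58.pw d M) hmor (le_iInf₂ fun L hL => ?_))
  rw [hbot, IntermediateField.relrank_bot_left]
  by_cases hf : Module.Finite ℚ L
  · obtain ⟨φ, c, hc, h⟩ := hL
    have h3 := h2 L φ.val φ.isUnit (H58.desc_of_def hd hM hc h)
    have h4 : ∏ p ∈ A, p ∣ Module.finrank ℚ L :=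
      Finset.prod_primes_dvd _ (fun p hp => (hA p hp).prime) fun p hp =>
        (Finset.dvd_lcm (f := id) hp).trans h3
    rw [← Module.finrank_eq_rank, map_natCast]
    exact_mod_cast Nat.le_of_dvd Module.finrank_pos h4
  · rw [← Module.rank_lt_aleph0_iff, not_lt] at hf
    rw [Cardinal.toENat_eq_top.mpr hf]
    exact le_top

theorem rowFINAL : H85.RowTOP → RowUP → RowLOW → RowSMALL → RowFINAL := by
  rintro ⟨c, hc⟩ hU hL -
  have hfin : ∀ N, 1 ≤ N → SS N = ((SS N).toNat : ℕ) := fun N hN => by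
    have h : TOPn N (Real.exp (c * Real.sqrt (N * Real.log (N + 1)))) := fun d hd => hc N d hN hd
    exact (ENat.natCast_toNat (ne_top_of_le_ne_top (ENat.natCast_ne_top _) (ss_le h))).symm
  refine ⟨fun N => (SS N).toNat, hfin, Metric.tendsto_nhds.mpr fun ε hε => ?_⟩
  filter_upwards [hU (ε / 2) (by linarith), hL (ε / 2) (by linarith), eventually_ge_atTop 2]
    with N h1 h2 h3
  obtain ⟨A, hA, hs, h2⟩ := h2
  have h4 := ss_le h1
  have h5 := le_ss A hA hs
  rw [hfin N (by omega)] at h4 h5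
  have h6 : (SS N).toNat ≤ ⌊Real.exp ((1 + ε / 2) * sz N)⌋₊ := by exact_mod_cast h4
  have h7 : ∏ p ∈ A, p ≤ (SS N).toNat := by exact_mod_cast h5
  have hpos : 0 < ∏ p ∈ A, p := Finset.prod_pos fun p hp => (hA p hp).pos
  have h8 : Real.log ((SS N).toNat : ℕ) ≤ (1 + ε / 2) * sz N := by
    rw [Real.log_le_iff_le_exp (by exact_mod_cast hpos.trans_le h7)]
    exact (Nat.cast_le.mpr h6).trans (Nat.floor_le (Real.exp_pos _).le)
  have h9 : (1 - ε / 2) * sz N ≤ Real.log ((SS N).toNat : ℕ) := by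
    refine h2.trans ?_
    rw [← Real.log_prod fun p hp => by exact_mod_cast (hA p hp).ne_zero, ← Nat.cast_prod]
    exact Real.log_le_log (by exact_mod_cast hpos) (by exact_mod_cast h7)
  have hs0 := sz_pos h3
  change dist (Real.log ((SS N).toNat : ℕ) / sz N) 1 < ε
  rw [Real.dist_eq, abs_lt, lt_sub_iff_add_lt, sub_lt_iff_lt_add, lt_div_iff₀ hs0,
    div_lt_iff₀ hs0]
  constructor <;> nlinarith

end Pool.Agent.MP_db5b97_nt.H75
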