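import Pool.Agent.MP_db5b97_nt.H31.SpecG

/-! Minimal degree of a doubly transitive permutation group. -/

namespace Pool.Agent.MP_db5b97_nt.H75

open MulAction Finset Equiv

section

variable {X : Type} [Fintype X] [DecidableEq X]

omit [Fintype X] in
theorem comm_fix (u v : Perm X) (x : X) (h0 : u x = x ∨ v x = x)
    (h1 : u (u⁻¹ x) = u⁻¹ x ∨ v (u⁻¹ x) = u⁻¹ x) (h2 : u (v⁻¹ x) = v⁻¹ x ∨ v (v⁻¹ x) = v⁻¹ x) :
    (v * u * v⁻¹ * u⁻¹) x = x := by
  have inv : ∀ (p : Perm X) (y : X), p y = y → p⁻¹ y = y := fun p y h => by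
    rw [Perm.inv_eq_iff_eq]; exact h.symm
  have key : v⁻¹ (u⁻¹ x) = u⁻¹ (v⁻¹ x) := by
    by_cases hu : u x = x
    · by_cases hv : v x = x
      · rw [inv u x hu, inv v x hv, inv u x hu]
      · rcases h2 with h | h
        · rw [inv u x hu, inv u _ h]
        · exfalso
          apply hv
          have e : v (v⁻¹ x) = x := by simp
          rw [e] at h
          conv_lhs => rw [h]
          exact e
    · have hv : v x = x := h0.resolve_left hu
      rcases h1 with h | h
      · exfalso
        apply hu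
        have e : u (u⁻¹ x) = x := by simp
        rw [e] at h
        conv_lhs => rw [h]
        exact e
      · rw [inv v _ h, inv v x hv]
  simp only [Perm.mul_apply]
  rw [key]
  simp

theorem comm_card (u v : Perm X) :
    (v * u * v⁻¹ * u⁻¹).support.card ≤ 3 * (u.support ∩ v.support).card := by
  set D := u.support ∩ v.support with hD
  have hsub : (v * u * v⁻¹ * u⁻¹).support ⊆ D ∪ D.image u ∪ D.image v := by
    intro x hx
    by_contra hn
    simp only [mem_union, not_or, mem_image, not_exists, not_and] at hn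
    obtain ⟨⟨h0, h1⟩, h2⟩ := hn
    have nd : ∀ y, y ∉ D → u y = y ∨ v y = y := fun y hy => by
      by_contra hc
      push Not at hc
      exact hy (by simp [hD, hc.1, hc.2])
    apply Perm.mem_support.mp hx
    apply comm_fix
    · exact nd x h0
    · exact nd _ fun h => h1 _ h (by simp)
    · exact nd _ fun h => h2 _ h (by simp)
  calc _ ≤ (D ∪ D.image u ∪ D.image v).card := card_le_card hsub
    _ ≤ (D ∪ D.image u).card + (D.image v).card := card_union_le _ _
    _ ≤ D.card + (D.image u).card + (D.image v).card := by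
        have := card_union_le D (D.image u); omega
    _ ≤ 3 * D.card := by
        have h1 := card_image_le (s := D) (f := u)
        have h2 := card_image_le (s := D) (f := v)
        omega

open Classical in
/-- the stabiliser of a point as a finite set -/
noncomputable def St (H : Subgroup (Perm X)) (a : X) : Finset (Perm X) :=
  univ.filter fun g => g ∈ H ∧ g a = a

theorem mem_St {H : Subgroup (Perm X)} {a : X} {g : Perm X} : g ∈ St H a ↔ g ∈ H ∧ g a = a := by
  simp [St]

theorem fib_le {H : Subgroup (Perm X)}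
    (h2 : ∀ a b c d : X, a ≠ b → c ≠ d → ∃ g ∈ H, g a = c ∧ g b = d) (a y x x' : X)
    (hx : x ≠ a) (hx' : x' ≠ a) :
    ((St H a).filter fun g => g y = x).card ≤ ((St H a).filter fun g => g y = x').card := by
  obtain ⟨k, hk, hka, hkx⟩ := h2 a x a x' hx.symm hx'.symm
  apply card_le_card_of_injOn (fun g => k * g)
  · intro g hg
    simp only [coe_filter, Set.mem_ofPred_eq, mem_St] at hg ⊢
    refine ⟨⟨H.mul_mem hk hg.1.1, ?_⟩, ?_⟩
    · rw [Perm.mul_apply, hg.1.2, hka]
    · rw [Perm.mul_apply, hg.2, hkx]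
  · intro g _ g' _ h
    exact mul_left_cancel h

theorem fib_sum (H : Subgroup (Perm X)) (a y : X) (T : Finset X) :
    ((St H a).filter fun g => g y ∈ T).card =
      ∑ x ∈ T, ((St H a).filter fun g => g y = x).card := by
  rw [card_eq_sum_card_fiberwise (f := fun g : Perm X => g y) (t := T)]
  · apply sum_congr rfl
    intro x hx
    congr 1
    ext g
    simp only [mem_filter]
    constructor
    · rintro ⟨⟨h1, _⟩, h3⟩; exact ⟨h1, h3⟩
    · rintro ⟨h1, h3⟩; exact ⟨⟨h1, h3 ▸ hx⟩, h3⟩
  · intro g hg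
    simp only [coe_filter, Set.mem_ofPred_eq] at hg
    exact hg.2

theorem count {H : Subgroup (Perm X)}
    (h2 : ∀ a b c d : X, a ≠ b → c ≠ d → ∃ g ∈ H, g a = c ∧ g b = d) (a y : X) (hy : y ≠ a)
    (T : Finset X) (hT : a ∉ T) :
    (Fintype.card X - 1) * ((St H a).filter fun g => g y ∈ T).card = T.card * (St H a).card := by
  set N := ((St H a).filter fun g => g y = y).card with hN
  have hc : ∀ U : Finset X, a ∉ U → ((St H a).filter fun g => g y ∈ U).card = U.card * N := by
    intro U hU
    rw [fib_sum, ← smul_eq_mul, ← sum_const]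
    apply sum_congr rfl
    intro x hx
    have hxa : x ≠ a := fun h => hU (h ▸ hx)
    exact le_antisymm (fib_le h2 a y x y hxa hy) (fib_le h2 a y y x hy hxa)
  have hall : (St H a).card = (Fintype.card X - 1) * N := by
    have := hc (univ.erase a) (by simp)
    rw [card_erase_of_mem (mem_univ a), card_univ] at this
    rw [← this]
    congr 1
    ext g
    simp only [mem_filter, mem_erase, mem_univ, and_true]
    refine ⟨fun h => ⟨h, fun e => hy ?_⟩, fun h => h.1⟩
    exact g.injective (e.trans (mem_St.mp h).2.symm)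
  rw [hc T hT, hall]
  ring

/-- number of points of `S` sent to `S` -/
def cc (S : Finset X) (g : Perm X) : ℕ := (S.filter fun y => g y ∈ S).card

theorem cc_sum {H : Subgroup (Perm X)}
    (h2 : ∀ a b c d : X, a ≠ b → c ≠ d → ∃ g ∈ H, g a = c ∧ g b = d) (a : X)
    (S : Finset X) (hS : a ∉ S) :
    (Fintype.card X - 1) * ∑ g ∈ St H a, cc S g = S.card ^ 2 * (St H a).card := by
  have e : ∑ g ∈ St H a, cc S g = ∑ y ∈ S, ((St H a).filter fun g => g y ∈ S).card := by
    simp only [cc, card_filter]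
    exact sum_comm
  rw [e, mul_sum, sum_congr rfl fun y hy => count h2 a y (fun h => hS (h ▸ hy)) S hS]
  rw [sum_const, smul_eq_mul]
  ring

theorem inter_le (u g : Perm X) (a : X) (hg : g a = a) :
    (u.support ∩ (g⁻¹ * u * g).support).card ≤ cc (u.support.erase a) g + 1 := by
  have hsub : u.support ∩ (g⁻¹ * u * g).support ⊆
      insert a ((u.support.erase a).filter fun y => g y ∈ u.support.erase a) := by
    intro x hx
    by_cases hxa : x = a
    · simp [hxa]
    · simp only [mem_inter, Perm.mem_support, Perm.mul_apply] at hx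
      simp only [mem_insert, mem_filter, mem_erase, Perm.mem_support]
      refine Or.inr ⟨⟨hxa, hx.1⟩, fun e => hxa (g.injective (e.trans hg.symm)), fun e => hx.2 ?_⟩
      rw [e]; simp
  exact (card_le_card hsub).trans (card_insert_le _ _)

theorem comm_one (u g : Perm X) (a : X) (hg : g a = a) (ha : u a ≠ a)
    (h : (g⁻¹ * u * g) * u * (g⁻¹ * u * g)⁻¹ * u⁻¹ = 1) : g (u a) ∈ u.support.erase a := by
  have hc : (g⁻¹ * u * g) * u = u * (g⁻¹ * u * g) := by
    have : (g⁻¹ * u * g) * u =
        ((g⁻¹ * u * g) * u * (g⁻¹ * u * g)⁻¹ * u⁻¹) * (u * (g⁻¹ * u * g)) := by group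
    rw [this, h, one_mul]
  have h1 := congrArg (fun p : Perm X => p a) hc
  simp only [Perm.mul_apply, hg] at h1
  simp only [mem_erase, Perm.mem_support]
  refine ⟨fun e => ha (g.injective (e.trans hg.symm)), fun e => ?_⟩
  rw [e] at h1
  have h3 : u a = u (g⁻¹ (u a)) := by simpa using h1
  have h4 : a = g⁻¹ (u a) := u.injective h3
  apply ha
  have h5 := congrArg g h4
  rw [hg] at h5
  simpa using h5.symm

theorem main {H : Subgroup (Perm X)}
    (h2 : ∀ a b c d : X, a ≠ b → c ≠ d → ∃ g ∈ H, g a = c ∧ g b = d)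
    (h3 : ∀ w ∈ H, ¬ w.IsThreeCycle) (u : Perm X) (hu : u ∈ H) (hu1 : u ≠ 1)
    (hmin : ∀ w ∈ H, w ≠ 1 → u.support.card ≤ w.support.card) :
    Fintype.card X ≤ 8 * u.support.card := by
  classical
  by_contra hlt
  push Not at hlt
  obtain ⟨a, ha⟩ : ∃ a, u a ≠ a := by
    by_contra hc
    push Not at hc
    exact hu1 (Equiv.ext hc)
  set S := u.support.erase a with hS
  have haS : a ∉ S := by simp [hS]
  have hcard : u.support.card = S.card + 1 := by
    rw [hS, card_erase_add_one (Perm.mem_support.mpr ha)]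
  have hpos : 0 < (St H a).card := card_pos.mpr ⟨1, mem_St.mpr ⟨H.one_mem, rfl⟩⟩
  have hw : ∀ g ∈ St H a, (g⁻¹ * u * g) * u * (g⁻¹ * u * g)⁻¹ * u⁻¹ ∈ H := fun g hg => by
    have hg' := (mem_St.mp hg).1
    have hv : g⁻¹ * u * g ∈ H := H.mul_mem (H.mul_mem (H.inv_mem hg') hu) hg'
    exact H.mul_mem (H.mul_mem (H.mul_mem hv hu) (H.inv_mem hv)) (H.inv_mem hu)
  have hsum := cc_sum h2 a S haS
  obtain ⟨n, hn⟩ : ∃ n, Fintype.card X = n + 1 := ⟨Fintype.card X - 1, by omega⟩
  have hB := count h2 a (u a) ha S haS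
  rw [hn, Nat.add_sub_cancel] at hsum hB
  -- every element of the stabiliser has a point of S sent into S
  have hone : ∀ g ∈ St H a, 1 ≤ cc S g := by
    intro g hg
    by_contra hc
    have hc0 : cc S g = 0 := by omega
    have hga := (mem_St.mp hg).2
    have hne : (g⁻¹ * u * g) * u * (g⁻¹ * u * g)⁻¹ * u⁻¹ ≠ 1 := fun h => by
      have h1 := comm_one u g a hga ha h
      have h4 : u a ∈ S := by
        simp only [hS, mem_erase, Perm.mem_support]
        exact ⟨ha, fun e => ha (u.injective e)⟩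
      have : 0 < cc S g := card_pos.mpr ⟨u a, mem_filter.mpr ⟨h4, h1⟩⟩
      omega
    have hle := comm_card u (g⁻¹ * u * g)
    have hi := inter_le u g a hga
    rw [← hS, hc0] at hi
    have h2le := Perm.two_le_card_support_of_ne_one hne
    have hn2 : ((g⁻¹ * u * g) * u * (g⁻¹ * u * g)⁻¹ * u⁻¹).support.card ≠ 2 := fun h => by
      have hs := (Perm.card_support_eq_two.mp h).sign_eq
      have : Perm.sign ((g⁻¹ * u * g) * u * (g⁻¹ * u * g)⁻¹ * u⁻¹) = 1 := by
        generalize g⁻¹ * u * g = v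
        rw [map_mul, map_mul, map_mul, map_inv, map_inv, mul_comm (Perm.sign v)]
        group
      rw [this] at hs
      exact absurd hs (by decide)
    exact h3 _ (hw g hg) (card_support_eq_three_iff.mp (by omega))
  have hge : (St H a).card ≤ ∑ g ∈ St H a, cc S g := by
    rw [card_eq_sum_ones]
    exact sum_le_sum hone
  have hk2 : n ≤ S.card ^ 2 := by
    have : n * (St H a).card ≤ S.card ^ 2 * (St H a).card := by
      rw [← hsum]; exact Nat.mul_le_mul_left _ hge
    exact Nat.le_of_mul_le_mul_right this hpos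
  have htwo : ∀ g ∈ St H a,
      S.card + 1 ≤ 3 * cc S g + 3 + (S.card + 1) * (if g (u a) ∈ S then 1 else 0) := by
    intro g hg
    have hga := (mem_St.mp hg).2
    by_cases h : (g⁻¹ * u * g) * u * (g⁻¹ * u * g)⁻¹ * u⁻¹ = 1
    · rw [if_pos (comm_one u g a hga ha h)]
      omega
    · have h1 := hmin _ (hw g hg) h
      have hle := comm_card u (g⁻¹ * u * g)
      have hi := inter_le u g a hga
      rw [← hS] at hi
      omega
  have hs2 := sum_le_sum htwo
  rw [sum_const, sum_add_distrib, sum_add_distrib, ← mul_sum, ← mul_sum, sum_const,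
    ← card_filter, smul_eq_mul, smul_eq_mul] at hs2
  set k := S.card
  set Z := (St H a).card
  set C := ∑ g ∈ St H a, cc S g
  set B := ((St H a).filter fun g => g (u a) ∈ S).card
  have hmul : (n * (k + 1)) * Z ≤ (3 * k ^ 2 + 3 * n + (k + 1) * k) * Z := by
    calc (n * (k + 1)) * Z = n * (Z * (k + 1)) := by ring
      _ ≤ n * (3 * C + Z * 3 + (k + 1) * B) := Nat.mul_le_mul_left _ hs2
      _ = 3 * (n * C) + 3 * n * Z + (k + 1) * (n * B) := by ring
      _ = _ := by rw [hsum, hB]; ring
  have hfin := Nat.le_of_mul_le_mul_right hmul hpos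
  have hn8 : 8 * k + 8 ≤ n := by omega
  have hk9 : 9 ≤ k := by
    by_contra hc
    have : k ≤ 8 := by omega
    nlinarith
  obtain ⟨j, hj⟩ : ∃ j, k = j + 2 := ⟨k - 2, by omega⟩
  rw [hj] at hfin hn8 hk9
  nlinarith [Nat.mul_le_mul_left j hn8]

end

theorem rowB2 : H31.RowB2 := by
  intro G X _ _ _ _ _ h2 hG g hg
  classical
  set H := (toPermHom G X).range with hH
  have h2' : ∀ a b c d : X, a ≠ b → c ≠ d → ∃ g ∈ H, g a = c ∧ g b = d := by
    intro a b c d hab hcd
    obtain ⟨k, hk1, hk2⟩ := is_two_pretransitive_iff.mp h2 hab hcd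
    exact ⟨toPermHom G X k, ⟨k, rfl⟩, hk1, hk2⟩
  have h3 : ∀ w ∈ H, ¬ w.IsThreeCycle := by
    intro w hw hc
    apply hG
    have hp : IsPreprimitive H X := by
      apply isPreprimitive_of_is_two_pretransitive
      rw [is_two_pretransitive_iff]
      intro a b c d hab hcd
      obtain ⟨k, hk, hk1, hk2⟩ := h2' a b c d hab hcd
      exact ⟨⟨k, hk⟩, hk1, hk2⟩
    have := Perm.alternatingGroup_le_of_isPreprimitive_of_isThreeCycle_mem hp hc hw
    intro σ hσ
    obtain ⟨k, hk⟩ := this (Perm.mem_alternatingGroup.mpr hσ)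
    exact ⟨k, fun x => by rw [← hk]; rfl⟩
  have hg1 : toPermHom G X g ≠ 1 := by
    obtain ⟨x, hx⟩ := hg
    intro h
    apply hx
    exact congrArg (fun p : Perm X => p x) h
  obtain ⟨u, hu, hmin⟩ := exists_min_image (univ.filter fun w : Perm X => w ∈ H ∧ w ≠ 1)
    (fun w => w.support.card) ⟨toPermHom G X g, mem_filter.mpr ⟨mem_univ _, ⟨g, rfl⟩, hg1⟩⟩
  simp only [mem_filter, mem_univ, true_and] at hu hmin
  have h1 := main h2' h3 u hu.1 hu.2 fun w hw hw1 => hmin w ⟨hw, hw1⟩
  have h4 := hmin _ ⟨⟨g, rfl⟩, hg1⟩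
  have h5 : (toPermHom G X g).support.card = H31.mv X g := rfl
  omega

end Pool.Agent.MP_db5b97_nt.H75
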